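import Pool.Agent.Helper32.CL.St3

/-! Module SG of project CL (MP_b2fa09_gt): pointwise facts for `θ`. -/

set_option autoImplicit false

namespace Pool.Agent.Helper82.CL

open Pool.Agent.Helper35.CL Helper32.CL Helper35.PI Helper35.PI2
open scoped ContDiff Manifold Topology ENNReal BigOperators
open MeasureTheory Set Filter

/-- the function `2|A|² - |H|²` of the invariants -/
def phG (p : ℝ × ℝ × ℝ × ℝ) : ℝ := 2 * p.1 - p.2.1

/-- the same as a linear map -/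
noncomputable def phM : ℝ × ℝ × ℝ × ℝ →L[ℝ] ℝ :=
  (2 : ℝ) • ContinuousLinearMap.fst ℝ ℝ (ℝ × ℝ × ℝ) -
    (ContinuousLinearMap.fst ℝ ℝ (ℝ × ℝ)).comp (ContinuousLinearMap.snd ℝ ℝ (ℝ × ℝ × ℝ))

theorem phM_apply (w : ℝ × ℝ × ℝ × ℝ) : phM w = 2 * w.1 - w.2.1 := by
  simp [phM]

theorem phG_eq : phG = fun p => phM p := by
  funext p
  rw [phM_apply]
  rfl

theorem phG_smooth : (cφ phG).Smooth := by
  refine ⟨?_, contDiff_const, contDiff_const, contDiff_const⟩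
  change ContDiff ℝ ∞ phG
  rw [phG_eq]
  exact phM.contDiff

theorem phG_fderiv (y : ℝ × ℝ × ℝ × ℝ) : fderiv ℝ phG y = phM := by
  rw [phG_eq]
  exact phM.fderiv

theorem gph_phG {N : ℕ} (A : Fin 2 → Fin 2 → EE N) (T : Fin 2 → Fin 2 → Fin 2 → EE N)
    (ν : EE N) (v : Fin 2 → ℝ) (k : Fin 2) :
    gph 0 (cφ phG) A T ν v k + Va 0 (cφ phG) A v k = vk 0 A T k := by
  unfold gph Va vk
  have h1 : (cφ phG).φ = phG := rfl
  rw [h1, phG_fderiv, phM_apply]
  have h2 : (g4 0 A T ν v k).1 = gX A T k := rfl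
  have h3 : (g4 0 A T ν v k).2.1 = gY A T k := rfl
  rw [h2, h3]
  ring

theorem hSG (hMD : StMD) (hML : StML) (hSE : StSE) (hMA : Helper35.PI2.StMA) (hCN : StCN) :
    StSG := by
  intro N M _ _ _ F hF t ht
  obtain ⟨p1, -⟩ := hML 2 N M F hF 0 0 (cφ phG) phG_smooth
  obtain ⟨-, -, -, p2, p3⟩ := p1 t ht
  refine ⟨p2, fun q => ?_⟩
  obtain ⟨A, T, ν, v, hA, hT, hAA, hHH, -, -, -, -, hmu, hfield⟩ := hMD 2 N M F hF q t ht
  obtain ⟨s1, s2, s3⟩ := hSE N A T hA hT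
  have hth : thF 2 F q t = 2 * XX A - YY A := by
    unfold thF
    rw [hAA, hHH]
    rfl
  have hNY : ‖HH (n := 2) F q t‖ ^ 2 = YY A := by
    rw [hHH]
    rfl
  have hg3 : g3F F q t = YY A * (2 * XX A - YY A)
      - (2 * (1 + 1 / 2) * hX A T - hY A T + 4 * (1 / 2) * eq2 T - 4 * (1 / 2) * AAH A) := by
    unfold g3F
    rw [((hmu (1 / 2)).2).deriv, hth, hNY]
    ring
  have htq : 0 ≤ tq T := by
    unfold tq
    exact Finset.sum_nonneg fun i _ => Finset.sum_nonneg fun j _ =>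
      Finset.sum_nonneg fun k _ => sq_nonneg _
  have key : 2 / 3 * tq T ≤ g3F F q t - 1 / 2 * (YY A * (2 * XX A - YY A))
      + 3 * (2 * XX A - YY A) ^ 2 := by
    rw [hg3]
    linarith
  rw [hth, hNY]
  refine ⟨s2, by linarith, ?_⟩
  have hgd : gdM 2 F t (fun q => thF 2 F q t) q = WFd 2 0 0 (cφ phG) F t q := (p3 q).symm
  rw [hgd, (hfield 0 0 (cφ phG) phG_smooth).1, zero_mul, zero_div, neg_zero, Real.exp_zero,
    one_pow, one_mul]
  rw [Finset.sum_congr rfl fun k _ => by rw [gph_phG A T ν v k]]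
  calc ∑ k, vk 0 A T k ^ 2 ≤ 200 * (2 * XX A - YY A) * tq T := s3
    _ = 300 * ((2 * XX A - YY A) * (2 / 3 * tq T)) := by ring
    _ ≤ 300 * ((2 * XX A - YY A) * (g3F F q t - 1 / 2 * (YY A * (2 * XX A - YY A))
      + 3 * (2 * XX A - YY A) ^ 2)) := by
        have := mul_le_mul_of_nonneg_left key s2
        linarith

end Pool.Agent.Helper82.CL
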