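import Pool.Agent.Helper35.CL.StA

/-! Module BP of project CL (MP_b2fa09_gt). -/

set_option autoImplicit false

namespace Helper82.CL

open Pool.Agent.Helper35.CL Helper32.CL Helper35.PI Helper35.PI2
open scoped ContDiff Manifold Topology ENNReal BigOperators
open MeasureTheory Set Filter

/-- derivative of powers of the positive part -/
theorem posPow (k : ℕ) (hk : 1 ≤ k) (v : ℝ) :
    HasDerivAt (fun v : ℝ => (max 0 v) ^ (k + 1)) (((k + 1 : ℕ) : ℝ) * (max 0 v) ^ k) v := by
  have hk0 : k ≠ 0 := by omega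
  rcases lt_trichotomy v 0 with h | h | h
  · rw [max_eq_left h.le, zero_pow hk0, mul_zero]
    have h1 : (fun v : ℝ => (max 0 v) ^ (k + 1)) =ᶠ[𝓝 v] fun _ => 0 := by
      filter_upwards [Iio_mem_nhds h] with w hw
      rw [max_eq_left (le_of_lt hw), zero_pow (by omega)]
    exact (hasDerivAt_const v (0 : ℝ)).congr_of_eventuallyEq h1
  · subst h
    rw [max_self, zero_pow hk0, mul_zero]
    have h1 : HasDerivWithinAt (fun v : ℝ => (max 0 v) ^ (k + 1)) 0 (Iic 0) 0 := by
      refine (hasDerivWithinAt_const (0 : ℝ) (Iic 0) (0 : ℝ)).congr (fun w hw => ?_) ?_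
      · rw [max_eq_left hw, zero_pow (by omega)]
      · rw [max_self, zero_pow (by omega)]
    have h2 : HasDerivWithinAt (fun v : ℝ => (max 0 v) ^ (k + 1)) 0 (Ici 0) 0 := by
      have h3 := (hasDerivAt_pow (k + 1) (0 : ℝ)).hasDerivWithinAt (s := Ici 0)
      rw [Nat.add_sub_cancel, zero_pow hk0, mul_zero] at h3
      refine h3.congr (fun w hw => ?_) ?_
      · rw [max_eq_right hw]
      · rw [max_self]
    have h4 := h1.union h2
    rw [Iic_union_Ici, hasDerivWithinAt_univ] at h4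
    exact h4
  · rw [max_eq_right h.le]
    have h1 : (fun v : ℝ => (max 0 v) ^ (k + 1)) =ᶠ[𝓝 v] fun v => v ^ (k + 1) := by
      filter_upwards [Ioi_mem_nhds h] with w hw
      rw [max_eq_right (le_of_lt hw)]
    have h2 := hasDerivAt_pow (k + 1) v
    rw [Nat.add_sub_cancel] at h2
    exact h2.congr_of_eventuallyEq h1

/-- the radial profile of the barrier -/
theorem zeta_deriv (R s : ℝ) :
    HasDerivAt (fun s : ℝ => (max 0 (s - R ^ 2)) ^ 2) (2 * max 0 (s - R ^ 2)) s := by
  have h := (posPow 1 le_rfl (s - R ^ 2)).comp s ((hasDerivAt_id s).sub_const (R ^ 2))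
  simp only [pow_one, mul_one] at h
  norm_num at h
  exact h

theorem zeta_smooth (R : ℝ) : ContDiff ℝ 1 (fun s : ℝ => (max 0 (s - R ^ 2)) ^ 2) := by
  rw [contDiff_one_iff_deriv]
  refine ⟨fun s => (zeta_deriv R s).differentiableAt, ?_⟩
  have h : deriv (fun s : ℝ => (max 0 (s - R ^ 2)) ^ 2) = fun s => 2 * max 0 (s - R ^ 2) :=
    funext fun s => (zeta_deriv R s).deriv
  rw [h]
  fun_prop

theorem hBP (hPR : Helper32.CL.StPR) : StBP := by
  intro N M _ _ _ F hF y R
  refine ⟨?_, ?_, ?_⟩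
  · have hc : ContinuousOn (fun z : M × ℝ => F z.1 z.2) (univ ×ˢ Iio 0) :=
      hF.smooth.continuousOn
    unfold CST ex
    have h1 : ContinuousOn (fun z : M × ℝ => ‖F z.1 z.2 - y‖ ^ 2 - R ^ 2) (univ ×ˢ Iio 0) :=
      (((hc.sub continuousOn_const).norm).pow 2).sub continuousOn_const
    exact ContinuousOn.sup continuousOn_const h1
  · intro q t ht
    have h1 : HasDerivAt (fun s => F q s - y) (HH (n := 2) F q t) t :=
      (hF.flow q t ht).sub_const y
    have h2 : HasDerivAt (fun s => ‖F q s - y‖ ^ 2 - R ^ 2)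
        (2 * inner ℝ (F q t - y) (HH (n := 2) F q t)) t := h1.norm_sq.sub_const (R ^ 2)
    have h3 := (posPow 2 (by norm_num) (‖F q t - y‖ ^ 2 - R ^ 2)).comp t h2
    unfold ex
    have h4 : ((2 + 1 : ℕ) : ℝ) * max 0 (‖F q t - y‖ ^ 2 - R ^ 2) ^ 2 *
        (2 * inner ℝ (F q t - y) (HH (n := 2) F q t)) =
        6 * max 0 (‖F q t - y‖ ^ 2 - R ^ 2) ^ 2 * inner ℝ (F q t - y) (HH (n := 2) F q t) := by
      push_cast
      ring
    rw [← h4]
    exact h3
  · intro t ht
    obtain ⟨r, hr, -, hz⟩ := (hPR 2 N M F hF t ht).2 y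
    obtain ⟨hs, hd⟩ := hz _ (zeta_smooth R)
    refine ⟨hs, fun q => ?_⟩
    have hd' : dvg (n := 2) F (fun q => ex F y R q t ^ 2 • (F q t - y)) q t =
        2 * ex F y R q t ^ 2 + 2 * (2 * ex F y R q t) * r q := by
      have h := hd q
      rw [(zeta_deriv R _).deriv] at h
      norm_num at h
      exact h
    rw [hd', inner_smul_right, real_inner_comm]
    have he : 0 ≤ ex F y R q t := le_max_left _ _
    have hr0 := (hr q).1
    have h1 := mul_nonneg he hr0
    nlinarith [sq_nonneg (ex F y R q t)]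

end Helper82.CL
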