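import Pool.Agent.Helper35.CL.StA

/-! Module EN of project CL (MP_b2fa09_gt): the total curvature is constant in time. -/

set_option autoImplicit false

namespace Helper82.CL

open Pool.Agent.Helper35.CL Helper32.CL Helper35.PI Helper35.PI2
open scoped ContDiff Manifold Topology ENNReal BigOperators
open MeasureTheory Set Filter

/-- the function `|H|² - |A|²` of the invariants -/
def phE (p : ℝ × ℝ × ℝ × ℝ) : ℝ := p.2.1 - p.1

/-- the same as a linear map -/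
noncomputable def phL : ℝ × ℝ × ℝ × ℝ →L[ℝ] ℝ :=
  (ContinuousLinearMap.fst ℝ ℝ (ℝ × ℝ)).comp (ContinuousLinearMap.snd ℝ ℝ (ℝ × ℝ × ℝ)) -
    ContinuousLinearMap.fst ℝ ℝ (ℝ × ℝ × ℝ)

theorem phE_eq : phE = fun p => phL p := by
  funext p
  simp [phE, phL]

theorem phL_apply (w : ℝ × ℝ × ℝ × ℝ) : phL w = w.2.1 - w.1 := by
  simp [phL]

theorem phE_smooth : (cφ phE).Smooth := by
  refine ⟨?_, contDiff_const, contDiff_const, contDiff_const⟩
  change ContDiff ℝ ∞ phE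
  rw [phE_eq]
  exact phL.contDiff

theorem phE_fderiv (y : ℝ × ℝ × ℝ × ℝ) : fderiv ℝ phE y = phL := by
  rw [phE_eq]
  exact phL.fderiv

theorem hph_phE {N : ℕ} (A : Fin 2 → Fin 2 → EE N) (T : Fin 2 → Fin 2 → Fin 2 → EE N)
    (ν : EE N) (v : Fin 2 → ℝ) : hph 0 (cφ phE) A T ν v = hY A T - hX A T := by
  unfold hph
  have h1 : (cφ phE).φ = phE := rfl
  rw [h1, phE_fderiv, phL_apply]
  have h2 : ∀ k : Fin 2, fderiv ℝ (fun y => fderiv ℝ phE y (g4 0 A T ν v k)) (J4 0 A ν)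
      (g4 0 A T ν v k) = 0 := by
    intro k
    have h3 : (fun y => fderiv ℝ phE y (g4 0 A T ν v k)) = fun _ => phL (g4 0 A T ν v k) := by
      funext y
      rw [phE_fderiv]
    rw [h3, fderiv_fun_const]
    rfl
  rw [Finset.sum_eq_zero fun k _ => h2 k, sub_zero]
  rfl

theorem dvA_phE {N : ℕ} (A : Fin 2 → Fin 2 → EE N) (T : Fin 2 → Fin 2 → Fin 2 → EE N)
    (ν : EE N) (v : Fin 2 → ℝ) : dvA 0 0 (cφ phE) A T ν v = -(hY A T - hX A T) := by
  unfold dvA dVa
  rw [hph_phE]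
  ring

theorem hEN (hMD : StMD) (hML : StML) (hGI : StGI) (hMA : Helper35.PI2.StMA) (hTD : StTD)
    (hFV : StFV) (hMU : StMU) : StEN := by
  intro N M _ _ _ _ _ _ _ F c χ hset t₁ t₂ ht₁ ht₂
  have hF := hset.mcf
  obtain ⟨p1, -, -, -, p5, p6, p7, -⟩ := hML 2 N M F hF 0 0 (cφ phE) phE_smooth
  obtain ⟨s, -, hs⟩ := hMU 2 N M F c χ hset
  -- integrals of divergences vanish
  have hdiv : ∀ t < 0, ∀ X : M → EE N, ContMDiff (𝓡 2) 𝓘(ℝ, EE N) 1 X →
      (∀ q, (inner ℝ (HH (n := 2) F q t) (X q) : ℝ) = 0) →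
      Integrable (fun q => dvg (n := 2) F X q t) (muM 2 F c χ t) ∧
        ∫ q, dvg (n := 2) F X q t ∂muM 2 F c χ t = 0 := by
    intro t ht X hX hperp
    obtain ⟨hc, hi⟩ := hFV 2 N M F c χ hset t ht X hX
    refine ⟨((hs t ht).2.2 _ hc).1, ?_⟩
    rw [← hi]
    refine integral_congr_ae (Eventually.of_forall fun q => ?_)
    change dvg (n := 2) F X q t = dvg (n := 2) F X q t + inner ℝ (HH (n := 2) F q t) (X q)
    rw [hperp q, add_zero]
  -- the pointwise identity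
  have hpt : ∀ t < 0, ∀ q : M,
      deriv (fun s => (cφ phE).φ (i4F 2 0 F q s)) t
        - ‖HH (n := 2) F q t‖ ^ 2 * (cφ phE).φ (i4F 2 0 F q t)
      = dvg (n := 2) F (WFd 2 0 0 (cφ phE) F t) q t
        + (1 / 2 * dvg (n := 2) F (VF 2 1 F t) q t
          - 1 / 2 * dvg (n := 2) F (VF 2 0 F t) q t) := by
    intro t ht q
    obtain ⟨A, T, ν, v, hA, -, hAA, hHH, -, -, -, -, hmu, hfield⟩ := hMD 2 N M F hF q t ht
    have h1 := ((hmu 1).2).unique ((hmu 0).2)
    have h2 := (hfield 0 0 (cφ phE) phE_smooth).2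
    rw [dvA_phE, zero_mul, zero_div, neg_zero, Real.exp_zero, one_mul] at h2
    have h3 := hGI N A hA
    have h4 : hY A T = -2 * eq2 T + 2 * ZZ A := rfl
    have h5 : (cφ phE).φ (i4F 2 0 F q t) = YY A - XX A := by
      change ‖HH (n := 2) F q t‖ ^ 2 - AA (n := 2) F q t = YY A - XX A
      rw [hAA, hHH]
      rfl
    have h6 : ‖HH (n := 2) F q t‖ ^ 2 = YY A := by
      rw [hHH]
      rfl
    rw [h5, h6, h2]
    linarith
  -- the derivative of the total curvature vanishes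
  have hder : ∀ t < 0, HasDerivAt (fun t => ∫ q, (cφ phE).φ (i4F 2 0 F q t) ∂muM 2 F c χ t)
      0 t := by
    intro t ht
    have h := (hTD 2 N M F c χ hset).2 (fun q t => (cφ phE).φ (i4F 2 0 F q t))
      (fun q t => deriv (fun s => (cφ phE).φ (i4F 2 0 F q s)) t) p5 p6 p7 t ht
    have hzero : ∫ q, (deriv (fun s => (cφ phE).φ (i4F 2 0 F q s)) t
        - ‖HH (n := 2) F q t‖ ^ 2 * (cφ phE).φ (i4F 2 0 F q t)) ∂muM 2 F c χ t = 0 := by
      obtain ⟨i0, e0⟩ := hdiv t ht _ (p1 t ht).1 (p1 t ht).2.1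
      obtain ⟨m1, o1, -, -⟩ := hMA 2 N M F hF 1 t ht
      obtain ⟨m0, o0, -, -⟩ := hMA 2 N M F hF 0 t ht
      obtain ⟨i1, e1⟩ := hdiv t ht _ m1 o1
      obtain ⟨i2, e2⟩ := hdiv t ht _ m0 o0
      rw [integral_congr_ae (Eventually.of_forall fun q => hpt t ht q)]
      have E1 : Integrable (fun q => 1 / 2 * dvg (n := 2) F (VF 2 1 F t) q t
          - 1 / 2 * dvg (n := 2) F (VF 2 0 F t) q t) (muM 2 F c χ t) :=
        (i1.const_mul (1 / 2)).sub (i2.const_mul (1 / 2))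
      refine (integral_add i0 E1).trans ?_
      rw [e0, zero_add]
      refine (integral_sub (i1.const_mul (1 / 2)) (i2.const_mul (1 / 2))).trans ?_
      rw [integral_const_mul, integral_const_mul, e1, e2]
      norm_num
    rw [hzero] at h
    exact h
  have hconst := IsOpen.is_const_of_deriv_eq_zero (s := Iio (0 : ℝ)) isOpen_Iio
    isPreconnected_Iio
    (f := fun t => ∫ q, (cφ phE).φ (i4F 2 0 F q t) ∂muM 2 F c χ t)
    (fun t ht => (hder t ht).differentiableAt.differentiableWithinAt)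
    (fun t ht => (hder t ht).deriv) ht₁ ht₂
  exact hconst

end Helper82.CL
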