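import Pool.Agent.Helper32.CL.St3

/-! Module SQ2 of project CL (MP_b2fa09_gt): times with small energy. -/

set_option autoImplicit false

namespace Pool.Agent.Helper82.CL

open Pool.Agent.Helper35.CL Helper32.CL Helper35.PI Helper35.PI2
open scoped ContDiff Manifold Topology ENNReal BigOperators
open MeasureTheory Set Filter

theorem cst_slice {M : Type} [TopologicalSpace M] {V : Type} [TopologicalSpace V]
    {g : M → ℝ → V} (hg : CST g) {t : ℝ} (ht : t < 0) : Continuous (fun q => g q t) := by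
  have h : ContinuousOn (fun z : M × ℝ => g z.1 z.2) (univ ×ˢ Iio 0) := hg
  have h1 : Continuous (fun q : M => (q, t)) := by fun_prop
  exact h.comp_continuous h1 fun q => ⟨mem_univ _, ht⟩

/-- integral of `1/(-t)` over a window -/
theorem window_log (L T : ℝ) (hL : 1 ≤ L) (hT : 0 < T) :
    ∫ t in (-(L * T))..(-T), (1 / (-t)) = Real.log L := by
  have h1 : (fun t : ℝ => 1 / (-t)) = fun t => -(t⁻¹) := by
    funext t
    rw [one_div, inv_neg]
  have hL0 : 0 < L := by linarith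
  have hLT : 0 < L * T := mul_pos hL0 hT
  rw [h1, intervalIntegral.integral_neg, integral_inv_of_neg (by linarith) (by linarith)]
  have h2 : -T / -(L * T) = L⁻¹ := by
    field_simp
  rw [h2, Real.log_inv, neg_neg]

theorem aux1 (ε C₁ τ : ℝ) (hC : 0 < C₁) (hτ : 0 < τ) :
    ε / (C₁ * τ) / 2 * (C₁ * τ) = ε / 2 := by
  field_simp

theorem aux2 (ε C₁ τ : ℝ) (hε : 0 < ε) (hC : 0 < C₁) (hτ : 0 < τ) :
    1 / (2 * (ε / (C₁ * τ))) * (ε ^ 2 / C₁ / τ) = ε / 2 := by
  field_simp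

theorem hSQ2 (hMU : StMU) (hIN : StIN) (hWW : StWW) (hAE : StAE) (hCO : StCO) (hGB : StGB)
    (hAF : StAF) (hTD : StTD) (hCN : StCN) (hMD : StMD) (hSE : StSE) : StSQ2 := by
  intro N M _ _ _ _ _ _ _ _ _ F c χ hset c₀ hc₀ hpin ε T₁ hε
  have hF := hset.mcf
  have hc1 : c₀ < 1 := by linarith
  obtain ⟨η, C, hη, hC, hIN'⟩ := hIN c₀ hc₀
  obtain ⟨-, hWW'⟩ := hWW N M F c χ hset c₀ hc1 hpin
  obtain ⟨C₁, hC₁, hAE'⟩ := hAE N M F c χ hset c₀ hc1 hpin
  obtain ⟨R, hR, hCO'⟩ := hCO N M F c χ hset c₀ hc1 hpin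
  obtain ⟨-, -, gC, gP, tC, -⟩ := hGB hAF.1 N M F hF
  obtain ⟨-, cH, -, -⟩ := hCN N M F hF
  obtain ⟨s, -, hs⟩ := hMU 2 N M F c χ hset
  have hth : ∀ q, ∀ t < 0, 0 ≤ thF 2 F q t := by
    intro q t ht
    obtain ⟨A, T, ν, v, hA, hT, hAA, hHH, -⟩ := hMD 2 N M F hF q t ht
    have h := (hSE N A T hA hT).2.1
    unfold thF
    rw [hAA, hHH]
    exact h
  have hthY : ∀ q, ∀ t < 0, thF 2 F q t ≤ ‖HH (n := 2) F q t‖ ^ 2 := by
    intro q t ht
    have h1 := hpin q t ht
    have h2 : 0 ≤ ‖HH (n := 2) F q t‖ ^ 2 := sq_nonneg _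
    unfold thF
    nlinarith
  have cY : CST (fun q t => ‖HH (n := 2) F q t‖ ^ 2) := by
    have h : ContinuousOn (fun z : M × ℝ => HH (n := 2) F z.1 z.2) (univ ×ˢ Iio 0) := cH
    exact (h.norm).pow 2
  have cYT : CST (fun q t => ‖HH (n := 2) F q t‖ ^ 2 * thF 2 F q t) := by
    have h : ContinuousOn (fun z : M × ℝ => ‖HH (n := 2) F z.1 z.2‖ ^ 2) (univ ×ˢ Iio 0) := cY
    have h' : ContinuousOn (fun z : M × ℝ => thF 2 F z.1 z.2) (univ ×ˢ Iio 0) := tC
    exact h.mul h'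
  have cG : CST (fun q t => ggF F q t * (‖HH (n := 2) F q t‖ ^ 2 * thF 2 F q t)) := by
    have h : ContinuousOn (fun z : M × ℝ => ggF F z.1 z.2) (univ ×ˢ Iio 0) := gC
    have h' : ContinuousOn (fun z : M × ℝ => ‖HH (n := 2) F z.1 z.2‖ ^ 2 * thF 2 F z.1 z.2)
      (univ ×ˢ Iio 0) := cYT
    exact h.mul h'
  have hTD' := (hTD 2 N M F c χ hset).1
  have hGc := hTD' _ cG
  set γ := Real.exp (-(R ^ 2 / 4)) with hγ
  have hγ0 : 0 < γ := Real.exp_pos _
  -- lower bound of the weight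
  have hgg : ∀ t ≤ -1, ∀ q, γ ≤ ggF F q t := by
    intro t ht q
    unfold ggF
    rw [hγ]
    apply Real.exp_le_exp.2
    have h1 := hCO' t ht q
    have ht0 : 0 < -t := by linarith
    have h2 : ‖F q t‖ ^ 2 ≤ R ^ 2 * (-t) := by
      have h3 : ‖F q t‖ ^ 2 ≤ (R * Real.sqrt (-t)) ^ 2 :=
        pow_le_pow_left₀ (norm_nonneg _) h1 2
      rw [mul_pow, Real.sq_sqrt ht0.le] at h3
      exact h3
    have h4 : 0 < (-2 * t)⁻¹ := by
      apply inv_pos.2
      linarith
    have h5 : (-2 * t)⁻¹ * ‖F q t‖ ^ 2 ≤ (-2 * t)⁻¹ * (R ^ 2 * (-t)) :=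
      mul_le_mul_of_nonneg_left h2 h4.le
    have h6 : (-2 * t)⁻¹ * (R ^ 2 * (-t)) = R ^ 2 / 2 := by
      have : t ≠ 0 := by linarith
      field_simp
    rw [h6] at h5
    linarith
  -- constants
  set b := ε ^ 2 / C₁ with hb
  have hb0 : 0 < b := by positivity
  set K := (C₁ + C) / (η * γ) with hK
  have hK0 : 0 < K := by positivity
  set L := Real.exp ((K + 1) / b) with hL
  have hL1 : 1 ≤ L := Real.one_le_exp (by positivity)
  have hlog : b * Real.log L = K + 1 := by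
    rw [hL, Real.log_exp]
    field_simp
  obtain ⟨T₀, hT₀, hWW''⟩ := hWW' L 1 hL1 one_pos
  set T := max T₀ T₁ with hT
  have hTT : T₀ ≤ T := le_max_left _ _
  have hTT₁ : T₁ ≤ T := le_max_right _ _
  have hT1 : 1 ≤ T := hT₀.trans hTT
  have hT0 : 0 < T := by linarith
  have hLT : T ≤ L * T := by nlinarith
  have hw := hWW'' T hTT
  -- a time with small `(-t) B(t)`
  have hex : ∃ t ∈ Icc (-(L * T)) (-T),
      (-t) * (∫ q, ‖HH (n := 2) F q t‖ ^ 2 * thF 2 F q t ∂muM 2 F c χ t) ≤ b := by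
    by_contra hno
    push Not at hno
    have hin := hIN' N M F c χ hset hpin (-(L * T)) (-T) (by linarith) (by linarith)
    have hsub : uIcc (-(L * T)) (-T) ⊆ Iio 0 := by
      rw [uIcc_of_le (by linarith)]
      intro t ht
      exact lt_of_le_of_lt ht.2 (by linarith)
    have hi1 : IntervalIntegrable (fun t : ℝ => γ * b * (1 / (-t))) volume (-(L * T)) (-T) := by
      apply ContinuousOn.intervalIntegrable
      intro t ht
      have ht0 : t < 0 := hsub ht
      have : -t ≠ 0 := by linarith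
      apply ContinuousAt.continuousWithinAt
      fun_prop (disch := assumption)
    have hi2 : IntervalIntegrable (fun t => ∫ q, ggF F q t * (‖HH (n := 2) F q t‖ ^ 2 *
        thF 2 F q t) ∂muM 2 F c χ t) volume (-(L * T)) (-T) :=
      (hGc.mono hsub).intervalIntegrable
    have hmono : ∫ t in (-(L * T))..(-T), γ * b * (1 / (-t)) ≤
        ∫ t in (-(L * T))..(-T), ∫ q, ggF F q t * (‖HH (n := 2) F q t‖ ^ 2 *
        thF 2 F q t) ∂muM 2 F c χ t := by
      refine intervalIntegral.integral_mono_on (by linarith) hi1 hi2 fun t ht => ?_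
      have ht1 : t ≤ -1 := by linarith [ht.2]
      have ht0 : t < 0 := by linarith
      have hB := hno t ht
      have hI1 := ((hs t ht0).2.2 _ (cst_slice cYT ht0)).1
      have hI2 := ((hs t ht0).2.2 _ (cst_slice cG ht0)).1
      have h1 : γ * (∫ q, ‖HH (n := 2) F q t‖ ^ 2 * thF 2 F q t ∂muM 2 F c χ t) ≤
          ∫ q, ggF F q t * (‖HH (n := 2) F q t‖ ^ 2 * thF 2 F q t) ∂muM 2 F c χ t := by
        rw [← integral_const_mul]
        refine integral_mono (hI1.const_mul γ) hI2 fun q => ?_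
        exact mul_le_mul_of_nonneg_right (hgg t ht1 q)
          (mul_nonneg (sq_nonneg _) (hth q t ht0))
      have h2 : b * (1 / (-t)) ≤
          ∫ q, ‖HH (n := 2) F q t‖ ^ 2 * thF 2 F q t ∂muM 2 F c χ t := by
        have ht2 : 0 < -t := by linarith
        rw [mul_one_div, div_le_iff₀ ht2]
        linarith
      calc γ * b * (1 / (-t)) = γ * (b * (1 / (-t))) := by ring
        _ ≤ γ * (∫ q, ‖HH (n := 2) F q t‖ ^ 2 * thF 2 F q t ∂muM 2 F c χ t) :=
          mul_le_mul_of_nonneg_left h2 hγ0.le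
        _ ≤ _ := h1
    rw [intervalIntegral.integral_const_mul, window_log L T hL1 hT0] at hmono
    have hY1 := (hAE' (-(L * T)) (by linarith)).1
    have h3 : C * (∫ t in (-(L * T))..(-T), (∫ q, (g1F F q t
        + ‖HH (n := 2) F q t‖ ^ 2 * wF F q t) ∂muM 2 F c χ t) / (4 * t ^ 2)) ≤ C * 1 :=
      mul_le_mul_of_nonneg_left hw hC
    have h4 : η * (γ * b * Real.log L) ≤ C₁ + C := by
      have := mul_le_mul_of_nonneg_left hmono hη.le
      linarith
    have h5 : η * (γ * b * Real.log L) = η * γ * (K + 1) := by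
      rw [← hlog]
      ring
    rw [h5] at h4
    have h6 : η * γ * K = C₁ + C := by
      rw [hK]
      field_simp
    have h7 : 0 < η * γ := mul_pos hη hγ0
    nlinarith
  obtain ⟨t, ht, hB⟩ := hex
  have ht1 : t ≤ -1 := by linarith [ht.2]
  have ht0 : t < 0 := by linarith
  have htp : 0 < -t := by linarith
  refine ⟨t, by linarith [ht.2], ht1, ?_⟩
  have hvol := (hAE' t ht1).2
  -- integrability
  have hI1 := ((hs t ht0).2.2 _ (cst_slice tC ht0)).1
  have cT2 : Continuous (fun q => thF 2 F q t ^ 2) := (cst_slice tC ht0).pow 2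
  have hI2 := ((hs t ht0).2.2 _ cT2).1
  have hI3 := ((hs t ht0).2.2 _ (cst_slice cYT ht0)).1
  haveI : IsFiniteMeasure (muM 2 F c χ t) := ⟨(hs t ht0).1⟩
  set a := ε / (C₁ * (-t)) with ha
  have ha0 : 0 < a := by positivity
  have hsq : ∫ q, thF 2 F q t ^ 2 ∂muM 2 F c χ t ≤
      ∫ q, ‖HH (n := 2) F q t‖ ^ 2 * thF 2 F q t ∂muM 2 F c χ t := by
    refine integral_mono hI2 hI3 fun q => ?_
    have h1 := hth q t ht0
    have h2 := hthY q t ht0
    change thF 2 F q t ^ 2 ≤ ‖HH (n := 2) F q t‖ ^ 2 * thF 2 F q t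
    rw [pow_two]
    exact mul_le_mul_of_nonneg_right h2 h1
  have hle : ∫ q, thF 2 F q t ∂muM 2 F c χ t ≤
      a / 2 * (muM 2 F c χ t).real univ + 1 / (2 * a) *
        ∫ q, thF 2 F q t ^ 2 ∂muM 2 F c χ t := by
    have h1 : ∫ q, (a / 2 + 1 / (2 * a) * thF 2 F q t ^ 2) ∂muM 2 F c χ t =
        a / 2 * (muM 2 F c χ t).real univ + 1 / (2 * a) *
        ∫ q, thF 2 F q t ^ 2 ∂muM 2 F c χ t := by
      rw [integral_add (integrable_const _) (hI2.const_mul _), integral_const,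
        integral_const_mul, smul_eq_mul, mul_comm]
    rw [← h1]
    refine integral_mono hI1 ((integrable_const _).add (hI2.const_mul _)) fun q => ?_
    change thF 2 F q t ≤ a / 2 + 1 / (2 * a) * thF 2 F q t ^ 2
    have h2 : 0 ≤ (a - thF 2 F q t) ^ 2 / (2 * a) := by positivity
    have h3 : (a - thF 2 F q t) ^ 2 / (2 * a) =
        a / 2 + 1 / (2 * a) * thF 2 F q t ^ 2 - thF 2 F q t := by
      field_simp
      ring
    linarith
  have h1 : a / 2 * (muM 2 F c χ t).real univ ≤ ε / 2 := by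
    calc a / 2 * (muM 2 F c χ t).real univ ≤ a / 2 * (C₁ * (-t)) :=
          mul_le_mul_of_nonneg_left hvol (by positivity)
      _ = ε / 2 := aux1 ε C₁ (-t) hC₁ htp
  have h2 : 1 / (2 * a) * ∫ q, thF 2 F q t ^ 2 ∂muM 2 F c χ t ≤ ε / 2 := by
    have h3 : ∫ q, thF 2 F q t ^ 2 ∂muM 2 F c χ t ≤ b / (-t) := by
      refine hsq.trans ?_
      rw [le_div_iff₀ htp]
      linarith
    calc 1 / (2 * a) * ∫ q, thF 2 F q t ^ 2 ∂muM 2 F c χ t ≤ 1 / (2 * a) * (b / (-t)) :=
          mul_le_mul_of_nonneg_left h3 (by positivity)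
      _ = ε / 2 := aux2 ε C₁ (-t) hε hC₁ htp
  linarith

end Pool.Agent.Helper82.CL
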